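import Pool.Agent.Lib.MP_c5d73d_lc.F.H36.Reals
import Pool.Agent.Lib.MP_c5d73d_lc.F.IfaceT
import Pool.Agent.Lib.MP_c5d73d_lc.F.H80.Basic

/-!
# Module ULTRA: names of nonprincipal ultrafilters on `ω`
-/

universe u v w

open Cardinal Filter

open scoped symmDiff

namespace Pool.Agent.Lib.MP_c5d73d_lc.F.H36

open Pool.Agent.Lib.MP_100a6c_lc
open BName
open Pool.Agent.Lib.MP_100a6c_lc.H36 (nn om nn_inj mem_nn mem_om nn_mem_om nn_mem_nn mem_check_om
  mem_check_nn)
open H80 (eq_le_ssub eq_le_ssub' le_ssub le_ssub_of_ge)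

variable {B : Type u} [CompleteBooleanAlgebra B]

/-! ## Extensionality -/

theorem ext_isInter_1 (a b : BName B) : Ext (fun c : BName B => isInter (VB B) c a b) :=
  Ext.iInf fun z => (ext_mem_right z).bihimp (Ext.const _)

theorem ext_isDiff_2 (c a : BName B) : Ext (fun x : BName B => isDiff (VB B) c x a) :=
  Ext.iInf fun z => (Ext.const _).bihimp ((ext_mem_right z).inf (Ext.const _))

theorem ext_isNPU_right (w : BName B) : Ext (fun x : BName B => isNPU (VB B) w x) :=
  ((((Ext.iInf fun a => (ext_mem_right a).himp (Ext.const _)).inf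
    (Ext.iInf fun a => Ext.iInf fun b => (((ext_mem_right a).inf (Ext.const _)).inf
      (Ext.const _)).himp (ext_mem_right b))).inf
    (Ext.iInf fun a => Ext.iInf fun b => Ext.iInf fun c => (((ext_mem_right a).inf
      (ext_mem_right b)).inf (Ext.const _)).himp (ext_mem_right c))).inf
    (Ext.iInf fun a => Ext.iInf fun c => (Ext.const _).himp
      ((ext_mem_right a).bihimp (ext_mem_right c).compl))).inf
    (Ext.iInf fun _ => Ext.iInf fun s => (Ext.const _).himp (ext_mem_right s).compl)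

/-! ## The subset of `ω` named by `z` -/

/-- The part of `z` in `ω`. -/
noncomputable def rd (z : BName B) : Rl B := fun n => bmem (check (nn n)) z

theorem sub_om_le' (z : BName B) : (VB B).sub z (check om) ≤ beq z (rn (rd z)) := sub_om_le z

theorem rd_rn (a : Rl B) : rd (rn a) = a := funext fun n => nn_mem_rn a n

theorem rd_le (z : BName B) (a : Rl B) : beq z (rn a) ≤ ⨅ n, (rd z n ⇔ a n) := by
  refine le_iInf fun n => ?_
  have h := (ext_mem_right (check (nn n) : BName B))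
  refine le_inf ?_ ?_
  · rw [le_himp_iff]
    have h1 : beq z (rn a) ⊓ a n ≤ bmem (check (nn n)) (rn a) := by
      rw [nn_mem_rn]; exact inf_le_right
    exact h.of_le' (x := rn a) inf_le_left h1
  · rw [le_himp_iff, ← nn_mem_rn a n]
    exact h.of_le (x := z) inf_le_left inf_le_right

/-! ## NU functionals -/

theorem NU.congr {x : Rl B → B} (hx : NU x) (a b : Rl B) : (⨅ n, (a n ⇔ b n)) ⊓ x a ≤ x b :=
  (inf_le_inf_right _ (eq_le_ssub a b)).trans (hx.mono a b)

theorem NU.bot' {x : Rl B → B} (hx : NU x) : x ⊥ = ⊥ := by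
  have h1 : x ⊥ = x (⊥ ⊓ (⊥ : Rl B)ᶜ) := by rw [bot_inf_eq]
  have h2 : x (⊥ ⊓ (⊥ : Rl B)ᶜ) = x ⊥ ⊓ (x ⊥)ᶜ := by rw [hx.inf, hx.compl]
  rw [h1, h2, inf_compl_self]

/-- Membership in `un x`. -/
theorem mem_un (x : Rl B → B) (z : BName B) : bmem z (un x) = ⨆ a, x a ⊓ beq z (rn a) := rfl

theorem mem_un_eq {x : Rl B → B} (hx : NU x) (z : BName B) :
    bmem z (un x) = (VB B).sub z (check om) ⊓ x (rd z) := by
  rw [mem_un]
  refine le_antisymm (iSup_le fun a => le_inf ?_ ?_) ?_
  · refine (ext_sub_left (check om)).of_le' (x := rn a) inf_le_right ?_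
    rw [rn_sub_om]; exact le_top
  · have h1 : x a ⊓ beq z (rn a) ≤ (⨅ n, (a n ⇔ rd z n)) ⊓ x a := by
      refine le_inf (inf_le_right.trans ((rd_le z a).trans ?_)) inf_le_left
      exact iInf_mono fun n => by rw [bihimp_comm]
    exact h1.trans (NU.congr hx a (rd z))
  · exact le_iSup_of_le (rd z) (le_inf inf_le_right (inf_le_left.trans (sub_om_le' z)))

theorem rn_mem_un {x : Rl B → B} (hx : NU x) (a : Rl B) : bmem (rn a) (un x) = x a := by
  rw [mem_un_eq hx, rn_sub_om, rd_rn, top_inf_eq]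

theorem sub_un_un (x : Rl B → B) {y : Rl B → B} (hy : NU y) :
    (VB B).sub (un x) (un y) = ⨅ a, (x a ⇨ y a) := by
  have h : (VB B).sub (un x) (un y) = ⨅ a : Rl B, (x a ⇨ bmem (rn a) (un y)) :=
    iInf_mem (ext_mem_left (un y)) (un x)
  rw [h]
  exact iInf_congr fun a => by rw [rn_mem_un hy]

theorem beq_un_un {x y : Rl B → B} (hx : NU x) (hy : NU y) :
    beq (un x) (un y) = ⨅ a, (x a ⇔ y a) := by
  refine le_antisymm (le_iInf fun a => le_inf ?_ ?_) ?_
  · exact ((beq_le_sub' (un x) (un y)).trans (sub_un_un y hx).le).trans (iInf_le _ a)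
  · exact ((beq_le_sub (un x) (un y)).trans (sub_un_un x hy).le).trans (iInf_le _ a)
  · refine le_trans (le_inf ?_ ?_) (sub_inf_sub_le (un x) (un y))
    · rw [sub_un_un x hy]
      exact iInf_mono fun n => inf_le_right
    · rw [sub_un_un y hx]
      exact iInf_mono fun n => inf_le_left

/-- `{n}`. -/
def sg (n : ℕ) : Rl B := fun k => if k = n then ⊤ else ⊥

/-- `[N, ∞)`. -/
def tl (N : ℕ) : Rl B := fun k => if N ≤ k then ⊤ else ⊥

theorem NU.finite {x : Rl B → B} (hx : NU x) {Γ : B} {a : Rl B} (N : ℕ)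
    (h : ∀ n, N ≤ n → Γ ⊓ a n = ⊥) : Γ ⊓ x a = ⊥ := by
  have h1 : Γ ≤ ssub a ⊥ := le_ssub_of_ge N fun n hn => by rw [h n hn]; exact bot_le
  refine le_bot_iff.1 ?_
  rw [← NU.bot' hx]
  exact (inf_le_inf_right _ h1).trans (hx.mono a ⊥)

theorem isNPU_un {x : Rl B → B} (hx : NU x) : isNPU (VB B) (check om) (un x) = ⊤ := by
  rw [eq_top_iff]
  refine le_inf (le_inf (le_inf (le_inf ?_ ?_) ?_) ?_) ?_
  · refine le_iInf fun a => ?_
    rw [le_himp_iff, top_inf_eq, VB_mem, mem_un_eq hx]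
    exact inf_le_left
  · refine le_iInf fun a => le_iInf fun b => ?_
    rw [le_himp_iff, top_inf_eq, VB_mem, VB_mem, mem_un_eq hx, mem_un_eq hx]
    refine le_inf inf_le_right ?_
    refine le_trans (le_inf ?_ ?_) (hx.mono (rd a) (rd b))
    · refine (inf_le_left.trans inf_le_right).trans ?_
      refine le_ssub fun n => ?_
      exact sub_apply le_rfl (check (nn n)) inf_le_left inf_le_right
    · exact inf_le_left.trans (inf_le_left.trans inf_le_right)
  · refine le_iInf fun a => le_iInf fun b => le_iInf fun c => ?_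
    rw [le_himp_iff, top_inf_eq, VB_mem, VB_mem, VB_mem, mem_un_eq hx, mem_un_eq hx, mem_un_eq hx]
    refine le_inf ?_ ?_
    · refine le_iInf fun z => ?_
      rw [le_himp_iff, VB_mem, VB_mem]
      have e1 : (VB B).sub a (check om) ⊓ x (rd a) ⊓ ((VB B).sub b (check om) ⊓ x (rd b)) ⊓
          isInter (VB B) c a b ⊓ bmem z c ≤ bmem z a := by
        have h1 : isInter (VB B) c a b ≤ bmem z c ⇨ (bmem z a ⊓ bmem z b) :=
          (iInf_le _ z).trans inf_le_right
        refine le_trans (inf_le_inf_right _ (inf_le_right.trans h1)) ?_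
        exact himp_inf_le.trans inf_le_left
      exact sub_apply (Γ := (VB B).sub a (check om)) le_rfl z
        (inf_le_left.trans (inf_le_left.trans (inf_le_left.trans inf_le_left))) e1
    · have h2 : isInter (VB B) c a b ≤ ssub (rd a ⊓ rd b) (rd c) := by
        refine le_ssub fun n => ?_
        have h1 : isInter (VB B) c a b ≤ (rd a n ⊓ rd b n) ⇨ rd c n :=
          (iInf_le _ (check (nn n))).trans inf_le_left
        exact (inf_le_inf_right _ h1).trans himp_inf_le
      refine le_trans (le_inf (inf_le_right.trans h2) ?_) (hx.mono (rd a ⊓ rd b) (rd c))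
      rw [hx.inf]
      exact le_inf (inf_le_left.trans (inf_le_left.trans inf_le_right))
        (inf_le_left.trans (inf_le_right.trans inf_le_right))
  · refine le_iInf fun a => le_iInf fun c => ?_
    rw [le_himp_iff, top_inf_eq]
    set Γ := (VB B).sub a (check om) ⊓ isDiff (VB B) c (check om) a with hΓ
    have e1 : Γ ≤ (VB B).sub a (check om) := inf_le_left
    have e0 : Γ ≤ isDiff (VB B) c (check om) a := inf_le_right
    have e2 : Γ ≤ (VB B).sub c (check om) := by
      refine e0.trans (le_iInf fun z => ?_)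
      rw [le_himp_iff]
      have h1 : isDiff (VB B) c (check om) a ≤ bmem z c ⇨ (bmem z (check om) ⊓ (bmem z a)ᶜ) :=
        (iInf_le _ z).trans inf_le_right
      exact (inf_le_inf_right _ h1).trans (himp_inf_le.trans inf_le_left)
    have e3 : Γ ≤ ⨅ n, ((rd a)ᶜ n ⇔ rd c n) := by
      refine e0.trans (le_iInf fun n => ?_)
      refine (iInf_le _ (check (nn n))).trans ?_
      rw [VB_mem, VB_mem, VB_mem, mem_check_of_mem (nn_mem_om n), top_inf_eq, bihimp_comm]
      rfl
    have e4 : Γ ⊓ x (rd c) = Γ ⊓ (x (rd a))ᶜ := by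
      rw [← hx.compl]
      refine le_antisymm (le_inf inf_le_left ?_) (le_inf inf_le_left ?_)
      · refine le_trans (inf_le_inf_right _ (e3.trans ?_)) (NU.congr hx (rd c) (rd a)ᶜ)
        exact iInf_mono fun n => by rw [bihimp_comm]
      · exact le_trans (inf_le_inf_right _ e3) (NU.congr hx (rd a)ᶜ (rd c))
    rw [le_bihimp_iff', VB_mem, VB_mem, mem_un_eq hx, mem_un_eq hx]
    have e5 : Γ ⊓ ((VB B).sub a (check om) ⊓ x (rd a)) = Γ ⊓ x (rd a) := by
      rw [← inf_assoc, inf_eq_left.2 e1]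
    have e6 : Γ ⊓ ((VB B).sub c (check om) ⊓ x (rd c))ᶜ = Γ ⊓ (x (rd c))ᶜ := by
      rw [compl_inf, inf_sup_left]
      have : Γ ⊓ ((VB B).sub c (check om))ᶜ = ⊥ :=
        le_bot_iff.1 ((inf_le_inf_right _ e2).trans (by rw [inf_compl_self]))
      rw [this, bot_sup_eq]
    rw [e5, e6]
    have e7 : Γ ⊓ (x (rd c))ᶜ = Γ ⊓ (Γ ⊓ x (rd c))ᶜ := by
      rw [compl_inf, inf_sup_left, inf_compl_self, bot_sup_eq]
    rw [e7, e4, compl_inf, inf_sup_left, inf_compl_self, bot_sup_eq, compl_compl]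
  · refine le_iInf fun n => le_iInf fun s => ?_
    rw [le_himp_iff, top_inf_eq, VB_mem, VB_mem, isUPair_eq, mem_check_om, iSup_inf_eq]
    refine iSup_le fun m => ?_
    rw [le_compl_iff_disjoint_right, disjoint_iff, mem_un_eq hx]
    refine le_bot_iff.1 ?_
    have h1 : beq n (check (nn m)) ⊓ beq s (upr n n) ⊓ x (rd s) = ⊥ := by
      refine NU.finite hx (m + 1) fun k hk => ?_
      refine le_bot_iff.1 ?_
      have e1 : beq n (check (nn m)) ⊓ beq s (upr n n) ⊓ rd s k ≤ bmem (check (nn k)) (upr n n) :=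
        (ext_mem_right _).of_le (x := s) (inf_le_left.trans inf_le_right) inf_le_right
      rw [mem_upr, sup_idem] at e1
      have e2 : beq n (check (nn m)) ⊓ beq s (upr n n) ⊓ rd s k ≤
          beq (check (nn k) : BName B) (check (nn m)) :=
        (ext_eq_right _).of_le (x := n) (inf_le_left.trans inf_le_left) e1
      refine e2.trans ?_
      rw [beq_check_of_ne]
      intro h
      have := nn_inj h
      omega
    rw [← h1]
    exact inf_le_inf_left _ inf_le_right

/-! ## Gluing -/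

theorem glue_compl (g p q : B) : ((p ⊓ g) ⊔ (q ⊓ gᶜ))ᶜ = (pᶜ ⊓ g) ⊔ (qᶜ ⊓ gᶜ) := by
  refine IsCompl.compl_eq ⟨?_, ?_⟩
  · rw [disjoint_iff, inf_sup_left, inf_sup_right, inf_sup_right]
    have h1 : p ⊓ g ⊓ (pᶜ ⊓ g) = ⊥ :=
      le_bot_iff.1 ((le_inf (inf_le_left.trans inf_le_left) (inf_le_right.trans inf_le_left)).trans
        (by rw [inf_compl_self]))
    have h2 : q ⊓ gᶜ ⊓ (pᶜ ⊓ g) = ⊥ :=
      le_bot_iff.1 ((le_inf (inf_le_right.trans inf_le_right) (inf_le_left.trans inf_le_right)).trans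
        (by rw [inf_compl_self]))
    have h3 : p ⊓ g ⊓ (qᶜ ⊓ gᶜ) = ⊥ :=
      le_bot_iff.1 ((le_inf (inf_le_left.trans inf_le_right) (inf_le_right.trans inf_le_right)).trans
        (by rw [inf_compl_self]))
    have h4 : q ⊓ gᶜ ⊓ (qᶜ ⊓ gᶜ) = ⊥ :=
      le_bot_iff.1 ((le_inf (inf_le_left.trans inf_le_left) (inf_le_right.trans inf_le_left)).trans
        (by rw [inf_compl_self]))
    rw [h1, h2, h3, h4]; simp
  · rw [codisjoint_iff]
    refine top_le_iff.1 ?_
    have h1 : g ≤ p ⊓ g ⊔ q ⊓ gᶜ ⊔ (pᶜ ⊓ g ⊔ qᶜ ⊓ gᶜ) := by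
      have : g = p ⊓ g ⊔ pᶜ ⊓ g := by rw [← inf_sup_right, sup_compl_eq_top, top_inf_eq]
      refine this.le.trans (sup_le ?_ ?_)
      · exact le_sup_of_le_left le_sup_left
      · exact le_sup_of_le_right le_sup_left
    have h2 : gᶜ ≤ p ⊓ g ⊔ q ⊓ gᶜ ⊔ (pᶜ ⊓ g ⊔ qᶜ ⊓ gᶜ) := by
      have : gᶜ = q ⊓ gᶜ ⊔ qᶜ ⊓ gᶜ := by rw [← inf_sup_right, sup_compl_eq_top, top_inf_eq]
      refine this.le.trans (sup_le ?_ ?_)
      · exact le_sup_of_le_left le_sup_right
      · exact le_sup_of_le_right le_sup_right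
    rw [← sup_compl_eq_top (x := g)]
    exact sup_le h1 h2

theorem glue_inf (g p q p' q' : B) :
    ((p ⊓ g) ⊔ (q ⊓ gᶜ)) ⊓ ((p' ⊓ g) ⊔ (q' ⊓ gᶜ)) = (p ⊓ p' ⊓ g) ⊔ (q ⊓ q' ⊓ gᶜ) := by
  refine le_antisymm ?_ (le_inf ?_ ?_)
  · rw [inf_sup_left, inf_sup_right, inf_sup_right]
    refine sup_le (sup_le ?_ ?_) (sup_le ?_ ?_)
    · exact le_sup_of_le_left (le_inf (le_inf (inf_le_left.trans inf_le_left)
        (inf_le_right.trans inf_le_left)) (inf_le_right.trans inf_le_right))
    · refine le_trans (le_inf (inf_le_right.trans inf_le_right) (inf_le_left.trans inf_le_right)) ?_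
      rw [inf_compl_self]; exact bot_le
    · refine le_trans (le_inf (inf_le_left.trans inf_le_right) (inf_le_right.trans inf_le_right)) ?_
      rw [inf_compl_self]; exact bot_le
    · exact le_sup_of_le_right (le_inf (le_inf (inf_le_left.trans inf_le_left)
        (inf_le_right.trans inf_le_left)) (inf_le_right.trans inf_le_right))
  · exact sup_le_sup (inf_le_inf_right _ inf_le_left) (inf_le_inf_right _ inf_le_left)
  · exact sup_le_sup (inf_le_inf_right _ inf_le_right) (inf_le_inf_right _ inf_le_right)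

theorem glue_inf_left (g p q : B) : g ⊓ ((p ⊓ g) ⊔ (q ⊓ gᶜ)) = g ⊓ p := by
  rw [inf_sup_left]
  have h1 : g ⊓ (q ⊓ gᶜ) = ⊥ :=
    le_bot_iff.1 ((le_inf inf_le_left (inf_le_right.trans inf_le_right)).trans
      (by rw [inf_compl_self]))
  rw [h1, sup_bot_eq, inf_comm p g, ← inf_assoc, inf_idem]

/-- A functional which is an ultrafilter at `Γ`, extended by an ultrafilter off `Γ`. -/
theorem nu_glue {Γ : B} {F x0 : Rl B → B} (h0 : NU x0)
    (h1 : ∀ a b : Rl B, Γ ⊓ F a ⊓ (⨅ n, (a n ⇨ b n)) ≤ F b)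
    (h2 : ∀ a b : Rl B, Γ ⊓ F a ⊓ F b ≤ F (a ⊓ b))
    (h3 : ∀ a : Rl B, Γ ⊓ F aᶜ = Γ ⊓ (F a)ᶜ)
    (h4 : ∀ n, Γ ⊓ F (sg n) = ⊥) : NU fun a => (F a ⊓ Γ) ⊔ (x0 a ⊓ Γᶜ) := by
  have hmono : ∀ a b : Rl B, a ≤ b → Γ ⊓ F a ≤ F b := by
    intro a b hab
    refine le_trans (le_inf le_rfl ?_) (h1 a b)
    refine le_iInf fun n => ?_
    rw [himp_eq_top_iff.2 (hab n)]; exact le_top
  have htop : Γ ≤ F ⊤ := by
    have e1 : Γ ⊓ F ⊥ ≤ F ⊤ := hmono ⊥ ⊤ bot_le
    have e2 : Γ ⊓ (F ⊤)ᶜ ≤ F ⊥ := by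
      rw [← h3 ⊤, compl_top]; exact inf_le_right
    have e3 : Γ ⊓ (F ⊤)ᶜ ≤ F ⊤ := le_trans (le_inf inf_le_left e2) e1
    have e4 : Γ = Γ ⊓ F ⊤ ⊔ Γ ⊓ (F ⊤)ᶜ := by rw [← inf_sup_left, sup_compl_eq_top, inf_top_eq]
    rw [e4]
    exact sup_le inf_le_right e3
  have htl : ∀ N, Γ ≤ F (tl N) := by
    intro N
    induction N with
    | zero =>
      refine le_trans (le_inf le_rfl htop) (hmono ⊤ (tl 0) ?_)
      intro n
      simp [tl]
    | succ N ih =>
      have e1 : Γ ≤ F (sg N)ᶜ := by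
        have e2 : Γ ⊓ F (sg N)ᶜ = Γ := by
          rw [h3 (sg N)]
          have h5 : Γ ≤ (F (sg N))ᶜ := by
            rw [le_compl_iff_disjoint_right, disjoint_iff]; exact h4 N
          exact inf_eq_left.2 h5
        exact e2 ▸ inf_le_right
      have e3 : Γ ≤ F (tl N ⊓ (sg N)ᶜ) :=
        le_trans (le_inf (le_inf le_rfl ih) e1) (h2 (tl N) (sg N)ᶜ)
      refine le_trans (le_inf le_rfl e3) (hmono _ (tl (N + 1)) ?_)
      intro n
      by_cases hn : N + 1 ≤ n
      · simp [tl, hn]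
      · by_cases hn' : N ≤ n
        · obtain rfl : n = N := by omega
          simp [tl, sg]
        · simp [tl, hn']
  refine ⟨fun a => ?_, fun a b => ?_, fun a b => ?_⟩
  · rw [glue_compl, h0.compl, inf_comm (F aᶜ) Γ, h3, inf_comm]
  · rw [glue_inf, h0.inf]
    congr 1
    refine le_antisymm (le_inf (le_inf ?_ ?_) inf_le_right) (le_inf ?_ inf_le_right)
    · rw [inf_comm]; exact hmono _ _ inf_le_left
    · rw [inf_comm]; exact hmono _ _ inf_le_right
    · refine le_trans ?_ (h2 a b)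
      exact le_inf (le_inf inf_le_right (inf_le_left.trans inf_le_left))
        (inf_le_left.trans inf_le_right)
  · rw [inf_sup_left]
    refine sup_le_sup (le_inf ?_ (inf_le_right.trans inf_le_right))
      (le_inf ?_ (inf_le_right.trans inf_le_right))
    · unfold ssub
      rw [iSup_inf_eq]
      refine iSup_le fun N => ?_
      have e1 : (⨅ n, (a (n + N) ⇨ b (n + N))) ⊓ (F a ⊓ Γ) ≤ F (a ⊓ tl N) := by
        refine le_trans ?_ (h2 a (tl N))
        exact le_inf (le_inf (inf_le_right.trans inf_le_right) (inf_le_right.trans inf_le_left))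
          ((inf_le_right.trans inf_le_right).trans (htl N))
      refine le_trans (le_inf (le_inf (inf_le_right.trans inf_le_right) e1) ?_) (h1 (a ⊓ tl N) b)
      refine le_iInf fun n => ?_
      rw [le_himp_iff]
      by_cases hn : N ≤ n
      · have e2 : (⨅ n, (a (n + N) ⇨ b (n + N))) ≤ a n ⇨ b n := by
          refine (iInf_le _ (n - N)).trans (le_of_eq ?_)
          rw [Nat.sub_add_cancel hn]
        refine le_trans (inf_le_inf (inf_le_left.trans e2) inf_le_left) himp_inf_le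
      · refine inf_le_right.trans (inf_le_right.trans ?_)
        simp [tl, hn]
    · exact (inf_le_inf_left _ inf_le_left).trans (h0.mono a b)

theorem exists_nu (hE : ExuStatement.{u}) (B : Type u) [CompleteBooleanAlgebra B] :
    ∃ x : Rl B → B, NU x := by
  obtain ⟨x, hx, -⟩ := hE B (fun a => ssub ⊤ a)
    (by rw [H80.ssub_bot, H80.infi_top, compl_top]) (H80.ssub_top_of_le le_rfl)
    (fun a b => by rw [H80.ssub_inf])
    (fun a b => by rw [inf_comm]; exact H80.ssub_trans ⊤ a b)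
  exact ⟨x, hx⟩

theorem isNPU_le (hE : ExuStatement.{u}) (y : BName B) :
    isNPU (VB B) (check om) y ≤ ⨆ x : {x : Rl B → B // NU x}, beq y (un x.1) := by
  obtain ⟨x0, h0⟩ := exists_nu hE B
  set Γ := isNPU (VB B) (check om) y with hΓ
  have p1 : Γ ≤ ⨅ a, (VB B).mem a y ⇨ (VB B).sub a (check om) :=
    inf_le_left.trans (inf_le_left.trans (inf_le_left.trans inf_le_left))
  have p2 : Γ ≤ ⨅ a, ⨅ b, (VB B).mem a y ⊓ (VB B).sub a b ⊓ (VB B).sub b (check om) ⇨
      (VB B).mem b y := inf_le_left.trans (inf_le_left.trans (inf_le_left.trans inf_le_right))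
  have p3 : Γ ≤ ⨅ a, ⨅ b, ⨅ c, (VB B).mem a y ⊓ (VB B).mem b y ⊓ isInter (VB B) c a b ⇨
      (VB B).mem c y := inf_le_left.trans (inf_le_left.trans inf_le_right)
  have p4 : Γ ≤ ⨅ a, ⨅ c, (VB B).sub a (check om) ⊓ isDiff (VB B) c (check om) a ⇨
      ((VB B).mem a y ⇔ ((VB B).mem c y)ᶜ) := inf_le_left.trans inf_le_right
  have p5 : Γ ≤ ⨅ n, ⨅ s, (VB B).mem n (check om) ⊓ (VB B).isUPair s n n ⇨ ((VB B).mem s y)ᶜ :=
    inf_le_right
  have h1 : ∀ a b : Rl B, Γ ⊓ bmem (rn a) y ⊓ (⨅ n, (a n ⇨ b n)) ≤ bmem (rn b) y := by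
    intro a b
    have h := p2.trans ((iInf_le _ (rn a)).trans (iInf_le _ (rn b)))
    rw [le_himp_iff] at h
    refine le_trans (le_inf (inf_le_left.trans inf_le_left) (le_inf (le_inf ?_ ?_) ?_)) h
    · exact inf_le_left.trans inf_le_right
    · rw [sub_rn_rn]; exact inf_le_right
    · rw [rn_sub_om]; exact le_top
  have h2 : ∀ a b : Rl B, Γ ⊓ bmem (rn a) y ⊓ bmem (rn b) y ≤ bmem (rn (a ⊓ b)) y := by
    intro a b
    have h := p3.trans ((iInf_le _ (rn a)).trans ((iInf_le _ (rn b)).trans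
      (iInf_le _ (rn (a ⊓ b)))))
    rw [le_himp_iff] at h
    refine le_trans (le_inf (inf_le_left.trans inf_le_left) (le_inf (le_inf ?_ ?_) ?_)) h
    · exact inf_le_left.trans inf_le_right
    · exact inf_le_right
    · refine le_iInf fun z => ?_
      rw [VB_mem, VB_mem, VB_mem, mem_rn, mem_rn, mem_rn]
      have e : (⨆ n, (a ⊓ b) n ⊓ beq z (check (nn n))) =
          (⨆ n, a n ⊓ beq z (check (nn n))) ⊓ ⨆ n, b n ⊓ beq z (check (nn n)) := by
        refine le_antisymm ?_ ?_
        · refine iSup_le fun n => le_inf (le_iSup_of_le n ?_) (le_iSup_of_le n ?_)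
          · exact inf_le_inf_right _ inf_le_left
          · exact inf_le_inf_right _ inf_le_right
        · rw [iSup_inf_iSup]
          refine iSup_le fun ⟨n, m⟩ => ?_
          by_cases hnm : n = m
          · subst hnm
            refine le_iSup_of_le n (le_inf (le_inf ?_ ?_) ?_)
            · exact inf_le_left.trans inf_le_left
            · exact inf_le_right.trans inf_le_left
            · exact inf_le_left.trans inf_le_right
          · refine le_trans ?_ bot_le
            rw [← beq_check_of_ne (B := B) (fun h' => hnm (nn_inj h'))]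
            exact (ext_eq_left (check (nn m))).of_le (x := z) (inf_le_left.trans inf_le_right)
              (inf_le_right.trans inf_le_right)
      rw [e, bihimp_self]; exact le_top
  have h3 : ∀ a : Rl B, Γ ⊓ bmem (rn aᶜ) y = Γ ⊓ (bmem (rn a) y)ᶜ := by
    intro a
    have h := p4.trans ((iInf_le _ (rn a)).trans (iInf_le _ (rn aᶜ)))
    rw [le_himp_iff] at h
    have e : (VB B).sub (rn a) (check om) ⊓ isDiff (VB B) (rn aᶜ) (check om) (rn a) = ⊤ := by
      rw [rn_sub_om, top_inf_eq, eq_top_iff]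
      refine le_iInf fun z => ?_
      rw [VB_mem, VB_mem, VB_mem, mem_rn, mem_check_om, mem_rn]
      have e' : (⨆ n, aᶜ n ⊓ beq z (check (nn n))) =
          (⨆ n, beq z (check (nn n))) ⊓ (⨆ n, a n ⊓ beq z (check (nn n)))ᶜ := by
        refine le_antisymm (iSup_le fun n => le_inf ?_ ?_) ?_
        · exact le_iSup_of_le n inf_le_right
        · rw [compl_iSup]
          refine le_iInf fun m => ?_
          rw [le_compl_iff_disjoint_right, disjoint_iff]
          refine le_bot_iff.1 ?_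
          by_cases hnm : n = m
          · subst hnm
            refine le_trans (le_inf (inf_le_right.trans inf_le_left)
              (inf_le_left.trans inf_le_left)) ?_
            rw [Pi.compl_apply, inf_compl_self]
          · rw [← beq_check_of_ne (B := B) (fun h' => hnm (nn_inj h'))]
            exact (ext_eq_left (check (nn m))).of_le (x := z) (inf_le_left.trans inf_le_right)
              (inf_le_right.trans inf_le_right)
        · rw [iSup_inf_eq]
          refine iSup_mono fun n => le_inf ?_ inf_le_left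
          rw [compl_iSup]
          refine (inf_le_inf_left _ (iInf_le _ n)).trans ?_
          rw [compl_inf, inf_sup_left, inf_compl_self, sup_bot_eq]
          exact inf_le_right
      rw [e', bihimp_self]
    rw [e, inf_top_eq, le_bihimp_iff', VB_mem, VB_mem] at h
    have e7 : Γ ⊓ (bmem (rn a) y)ᶜ = Γ ⊓ (Γ ⊓ bmem (rn a) y)ᶜ := by
      rw [compl_inf, inf_sup_left, inf_compl_self, bot_sup_eq]
    rw [e7, h, compl_inf, inf_sup_left, inf_compl_self, bot_sup_eq, compl_compl]
  have h4 : ∀ n, Γ ⊓ bmem (rn (sg n)) y = ⊥ := by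
    intro n
    have h := p5.trans ((iInf_le _ (check (nn n))).trans (iInf_le _ (rn (sg n))))
    rw [le_himp_iff] at h
    have e : (VB B).mem (check (nn n)) (check om) ⊓
        (VB B).isUPair (rn (sg n)) (check (nn n)) (check (nn n)) = ⊤ := by
      rw [VB_mem, mem_check_of_mem (nn_mem_om n), top_inf_eq, isUPair_eq, eq_top_iff, beq_eq_iInf]
      refine le_iInf fun z => ?_
      rw [mem_rn, mem_upr, sup_idem]
      have e' : (⨆ m, sg n m ⊓ beq z (check (nn m))) = beq z (check (nn n) : BName B) := by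
        refine le_antisymm (iSup_le fun m => ?_) (le_iSup_of_le n ?_)
        · by_cases hnm : m = n
          · subst hnm; exact inf_le_right
          · simp [sg, hnm]
        · simp [sg]
      rw [e', bihimp_self]
    rw [e, inf_top_eq, le_compl_iff_disjoint_right, disjoint_iff] at h
    exact h
  refine le_iSup_of_le ⟨_, nu_glue h0 h1 h2 h3 h4⟩ ?_
  rw [le_beq_iff]
  intro z
  change _ = Γ ⊓ bmem z (un fun a => (bmem (rn a) y ⊓ Γ) ⊔ (x0 a ⊓ Γᶜ))
  rw [mem_un_eq (nu_glue h0 h1 h2 h3 h4)]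
  have e1 : Γ ⊓ bmem z y ≤ (VB B).sub z (check om) :=
    iInf_himp_apply p1 z inf_le_left inf_le_right
  refine le_antisymm (le_inf inf_le_left (le_inf e1 ?_)) (le_inf inf_le_left ?_)
  · refine le_sup_of_le_left (le_inf ?_ inf_le_left)
    exact (ext_mem_left y).of_le (x := z) (e1.trans (sub_om_le' z)) inf_le_right
  · have e2 : Γ ⊓ ((VB B).sub z (check om) ⊓ (bmem (rn (rd z)) y ⊓ Γ ⊔ x0 (rd z) ⊓ Γᶜ)) ≤
        Γ ⊓ (bmem (rn (rd z)) y ⊓ Γ ⊔ x0 (rd z) ⊓ Γᶜ) := inf_le_inf_left _ inf_le_right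
    rw [glue_inf_left] at e2
    exact (ext_mem_left y).of_le' (x := rn (rd z))
      ((inf_le_right.trans inf_le_left).trans (sub_om_le' z)) (e2.trans inf_le_right)

theorem isStar_Star (hE : ExuStatement.{u}) (B : Type u) [CompleteBooleanAlgebra B] :
    isStar (VB B) (check om) (Star B) = ⊤ := by
  rw [isStar, eq_top_iff]
  refine le_iInf fun z => ?_
  have e : bmem z (Star B) = isNPU (VB B) (check om) z := by
    rw [Star, mem_mk]
    refine le_antisymm (iSup_le fun x => ?_) ?_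
    · refine (ext_isNPU_right (check om)).of_le' (x := un x.1) inf_le_right ?_
      rw [isNPU_un x.2]; exact le_top
    · refine (isNPU_le hE z).trans (iSup_mono fun x => ?_)
      rw [top_inf_eq]
  rw [VB_mem, e, bihimp_self]

/-- ULTRA. -/
theorem ultra (hE : ExuStatement.{u}) : UltraStatement.{u} := fun B _ =>
  ⟨fun _ hx => rn_mem_un hx, fun _ _ hx hy => beq_un_un hx hy, fun _ hx => isNPU_un hx,
    isNPU_le hE, isStar_Star hE B⟩

end Pool.Agent.Lib.MP_c5d73d_lc.F.H36
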