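import Pool.Agent.Lib.MP_c5d73d_lc.F.IfaceW
import Pool.Agent.Lib.MP_100a6c_lc.H68.Ord

/-!
# Module REALS: names of subsets of `ω`
-/

universe u v w

open Cardinal Filter

open scoped symmDiff

namespace Pool.Agent.Lib.MP_c5d73d_lc.F.H36

open Pool.Agent.Lib.MP_100a6c_lc
open BName
open Pool.Agent.Lib.MP_100a6c_lc.H36 (nn om nn_inj mem_nn mem_om nn_mem_om nn_mem_nn mem_check_om
  mem_check_nn)

variable {B : Type u} [CompleteBooleanAlgebra B]

/-! ## Extensionality of the notions -/

theorem ext_isEmpty : Ext (fun x : BName B => isEmpty (VB B) x) :=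
  Ext.iInf fun z => (ext_mem_right z).compl

theorem ext_isSuc_left (y : BName B) : Ext (fun x : BName B => isSuc (VB B) x y) :=
  Ext.iInf fun z => (ext_mem_right z).bihimp (Ext.const _)

theorem ext_isSuc_right (x : BName B) : Ext (fun y : BName B => isSuc (VB B) x y) :=
  Ext.iInf fun z => (Ext.const _).bihimp ((ext_mem_right z).sup (ext_eq_right z))

theorem ext_isOm : Ext (fun x : BName B => isOm (VB B) x) :=
  ((ext_isOrd.inf (Ext.iSup fun x => ext_mem_right x)).inf
    (Ext.iInf fun x => (ext_mem_right x).himp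
      (Ext.iSup fun y => (ext_mem_right y).inf (Ext.const _)))).inf
    (Ext.iInf fun x => (ext_mem_right x).himp (Ext.const _))

theorem ext_isPow_left (x : BName B) : Ext (fun p : BName B => isPow (VB B) p x) :=
  Ext.iInf fun z => (ext_mem_right z).bihimp (Ext.const _)

theorem ext_isPow_right (p : BName B) : Ext (fun x : BName B => isPow (VB B) p x) :=
  Ext.iInf fun z => (Ext.const _).bihimp (ext_sub_right z)

/-! ## `rn` -/

theorem mem_rn (a : Rl B) (z : BName B) : bmem z (rn a) = ⨆ n, a n ⊓ beq z (check (nn n)) := by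
  rw [rn, mem_mk]
  refine le_antisymm (iSup_le fun i => ?_) (iSup_le fun n => ?_)
  · exact le_iSup (fun n => a n ⊓ beq z (check (nn n))) i.down
  · exact le_iSup (fun i : ULift.{u} ℕ => a i.down ⊓ beq z (check (nn i.down))) ⟨n⟩

theorem nn_mem_rn (a : Rl B) (n : ℕ) : bmem (check (nn n)) (rn a) = a n := by
  rw [mem_rn]
  refine le_antisymm (iSup_le fun m => ?_) ?_
  · by_cases h : n = m
    · subst h; exact inf_le_left
    · rw [beq_check_of_ne (fun h' => h (nn_inj h')), inf_bot_eq]; exact bot_le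
  · refine le_iSup_of_le n ?_
    rw [beq_refl, inf_top_eq]

theorem sub_rn_iff (a : Rl B) (y : BName B) :
    (VB B).sub (rn a) y = ⨅ n, (a n ⇨ bmem (check (nn n)) y) := by
  have h : (VB B).sub (rn a) y = ⨅ i : ULift.{u} ℕ, (a i.down ⇨ bmem (check (nn i.down)) y) :=
    iInf_mem (ext_mem_left y) (rn a)
  rw [h]
  refine le_antisymm (le_iInf fun n => ?_) (le_iInf fun i => ?_)
  · exact iInf_le (fun i : ULift.{u} ℕ => (a i.down ⇨ bmem (check (nn i.down)) y)) ⟨n⟩
  · exact iInf_le (fun n => (a n ⇨ bmem (check (nn n)) y)) i.down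

theorem sub_rn_rn (a b : Rl B) : (VB B).sub (rn a) (rn b) = ⨅ n, (a n ⇨ b n) := by
  rw [sub_rn_iff]
  exact iInf_congr fun n => by rw [nn_mem_rn]

theorem beq_rn_rn (a b : Rl B) : beq (rn a) (rn b) = ⨅ n, (a n ⇔ b n) := by
  refine le_antisymm (le_iInf fun n => le_inf ?_ ?_) ?_
  · have h := (beq_le_sub' (rn a) (rn b)).trans (sub_rn_rn b a).le
    exact h.trans (iInf_le _ n)
  · have h := (beq_le_sub (rn a) (rn b)).trans (sub_rn_rn a b).le
    exact h.trans (iInf_le _ n)
  · refine le_trans (le_inf ?_ ?_) (sub_inf_sub_le (rn a) (rn b))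
    · rw [sub_rn_rn]
      exact iInf_mono fun n => inf_le_right
    · rw [sub_rn_rn]
      exact iInf_mono fun n => inf_le_left

theorem sub_om_le (z : BName B) :
    (VB B).sub z (check om) ≤ beq z (rn fun n => bmem (check (nn n)) z) := by
  refine le_trans (le_inf ?_ ?_) (sub_inf_sub_le _ _)
  · refine le_iInf fun y => ?_
    rw [le_himp_iff]
    have h1 : (VB B).sub z (check om) ⊓ (VB B).mem y z ≤ bmem y (check om) :=
      sub_apply le_rfl y inf_le_left inf_le_right
    rw [mem_check_om] at h1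
    refine (le_inf le_rfl h1).trans ?_
    rw [inf_iSup_eq, VB_mem, VB_mem, mem_rn]
    refine iSup_mono fun n => le_inf ?_ inf_le_right
    exact (ext_mem_left z).of_le (x := y) inf_le_right (inf_le_left.trans inf_le_right)
  · rw [sub_rn_iff]
    refine le_iInf fun n => ?_
    rw [himp_self]
    exact le_top

theorem rn_sub_om (a : Rl B) : (VB B).sub (rn a) (check om) = ⊤ := by
  rw [sub_rn_iff, eq_top_iff]
  refine le_iInf fun n => ?_
  rw [mem_check_of_mem (nn_mem_om n), himp_top]

theorem mem_Pw (z : BName B) : bmem z Pw = (VB B).sub z (check om) := by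
  rw [Pw, mem_mk]
  refine le_antisymm (iSup_le fun a => ?_) ?_
  · refine inf_le_right.trans ?_
    refine (ext_sub_left (check om)).of_le' (x := rn a) le_rfl ?_
    rw [rn_sub_om]; exact le_top
  · refine le_iSup_of_le (fun n => bmem (check (nn n)) z) (le_inf le_top (sub_om_le z))

theorem isPow_om (c : BName B) : isPow (VB B) c (check om) = beq c Pw := by
  rw [beq_eq_iInf]
  refine iInf_congr fun z => ?_
  rw [mem_Pw, VB_mem]

/-! ## `ω` -/

theorem isEmpty_zero : isEmpty (VB B) (check (nn 0)) = ⊤ := by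
  rw [isEmpty, eq_top_iff]
  refine le_iInf fun z => ?_
  rw [VB_mem, mem_check_nn, iSup_of_empty, compl_bot]

theorem isSuc_succ (k : ℕ) : isSuc (VB B) (check (nn (k + 1))) (check (nn k)) = ⊤ := by
  rw [isSuc, eq_top_iff]
  refine le_iInf fun z => ?_
  rw [VB_mem, VB_mem, VB_eq, mem_check_nn, mem_check_nn]
  have h : (⨆ j : Fin (k + 1), beq z (check (nn j))) =
      (⨆ j : Fin k, beq z (check (nn j))) ⊔ beq z (check (nn k) : BName B) := by
    refine le_antisymm (iSup_le fun j => ?_) (sup_le (iSup_le fun j => ?_) ?_)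
    · rcases Nat.lt_succ_iff_lt_or_eq.1 j.2 with h | h
      · exact le_sup_of_le_left (le_iSup (fun j : Fin k => beq z (check (nn j))) ⟨j, h⟩)
      · rw [h]; exact le_sup_right
    · exact le_iSup (fun j : Fin (k + 1) => beq z (check (nn j))) j.castSucc
    · exact le_iSup (fun j : Fin (k + 1) => beq z (check (nn j))) (Fin.last k)
  rw [h, bihimp_self]

theorem isOm_om : isOm (VB B) (check om) = ⊤ := by
  rw [eq_top_iff]
  refine le_inf (le_inf (le_inf ?_ ?_) ?_) ?_
  · rw [isOrd_check]
    exact ZFSet.isOrdinal_toZFSet _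
  · refine le_iSup_of_le (check (nn 0)) ?_
    rw [VB_mem, mem_check_of_mem (nn_mem_om 0)]
  · refine le_trans ?_ (iInf_VBcheck (Ext.iSup fun y => (Ext.const _).inf (ext_mem_left y)) om).ge
    refine le_iInf fun a => le_iInf fun ha => ?_
    obtain ⟨k, rfl⟩ := mem_om.1 ha
    refine le_iSup_of_le (check (nn (k + 1))) (le_inf ?_ ?_)
    · rw [VB_mem, mem_check_of_mem (nn_mem_om _)]
    · rw [mem_check_of_mem (nn_mem_nn (Nat.lt_succ_self k))]
  · refine le_trans ?_ (iInf_VBcheck (ext_isEmpty.sup (Ext.iSup fun y => ext_isSuc_left y)) om).ge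
    refine le_iInf fun a => le_iInf fun ha => ?_
    obtain ⟨k, rfl⟩ := mem_om.1 ha
    cases k with
    | zero => rw [isEmpty_zero]; exact le_sup_left
    | succ k =>
      refine le_sup_of_le_right (le_iSup_of_le (check (nn k)) ?_)
      rw [isSuc_succ]

theorem isSuc_om (y : BName B) : isSuc (VB B) (check om) y = ⊥ := by
  rw [eq_bot_iff]
  have h0 : isSuc (VB B) (check om) y ≤ bmem y (check om) := by
    refine (iInf_le _ y).trans ?_
    rw [VB_mem, VB_mem, VB_eq, beq_refl, sup_top_eq]
    exact inf_le_left.trans (by rw [top_himp])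
  rw [mem_check_om] at h0
  refine (le_inf le_rfl h0).trans ?_
  rw [inf_iSup_eq]
  refine iSup_le fun m => ?_
  have h1 : isSuc (VB B) (check om) y ⊓ beq y (check (nn m)) ≤
      isSuc (VB B) (check om) (check (nn m)) :=
    (ext_isSuc_right (check om)).of_le (x := y) inf_le_right inf_le_left
  refine h1.trans ((iInf_le _ (check (nn (m + 1)))).trans ?_)
  rw [VB_mem, VB_mem, VB_eq, mem_check_of_mem (nn_mem_om _), mem_check_of_not_mem,
    beq_check_of_ne, bot_sup_eq]
  · exact inf_le_right.trans (by rw [top_himp])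
  · intro h
    have := nn_inj h
    omega
  · intro h
    obtain ⟨k, hk, h'⟩ := mem_nn.1 h
    have := nn_inj h'
    omega

theorem isOm_check_of_ne {y : ZFSet.{u}} (hy : y.IsOrdinal) (h : y ≠ om) :
    isOm (VB B) (check y) = ⊥ := by
  rw [eq_bot_iff]
  obtain ⟨α, rfl⟩ : ∃ α : Ordinal.{u}, y = α.toZFSet := ⟨y.rank, (hy.toZFSet_rank_eq).symm⟩
  have hα : α ≠ Ordinal.omega0 := fun h' => h (by rw [h', om])
  rcases lt_or_gt_of_ne hα with h1 | h1
  · obtain ⟨k, rfl⟩ := Ordinal.lt_omega0.1 h1
    change isOm (VB B) (check (nn k)) ≤ ⊥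
    cases k with
    | zero =>
      refine (inf_le_left.trans (inf_le_left.trans inf_le_right)).trans (iSup_le fun x => ?_)
      rw [VB_mem, mem_check_nn, iSup_of_empty]
    | succ k =>
      refine (inf_le_left.trans inf_le_right).trans ((iInf_le _ (check (nn k))).trans ?_)
      rw [VB_mem, mem_check_of_mem (nn_mem_nn (Nat.lt_succ_self k)), top_himp]
      refine iSup_le fun y => ?_
      rw [VB_mem, VB_mem, mem_check_nn, iSup_inf_eq]
      refine iSup_le fun j => ?_
      have h2 : beq y (check (nn j)) ⊓ bmem (check (nn k)) y ≤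
          bmem (check (nn k) : BName B) (check (nn j)) :=
        (ext_mem_right _).of_le inf_le_left inf_le_right
      refine h2.trans ?_
      rw [mem_check_of_not_mem]
      intro h3
      obtain ⟨i, hi, h'⟩ := mem_nn.1 h3
      have := nn_inj h'
      have := j.2
      omega
  · refine inf_le_right.trans ((iInf_le _ (check om)).trans ?_)
    rw [VB_mem, mem_check_of_mem, top_himp]
    · refine sup_le ?_ (iSup_le fun z => (isSuc_om z).le)
      refine (iInf_le _ (check (nn 0))).trans ?_
      rw [VB_mem, mem_check_of_mem (nn_mem_om 0), compl_top]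
    · rw [om, Ordinal.mem_toZFSet_iff]
      exact ⟨_, h1, rfl⟩

theorem isOm_eq (w : BName B) : isOm (VB B) w = beq w (check om) := by
  refine le_antisymm ?_ ?_
  · have h : isOm (VB B) w ≤ ⨆ y : {y : ZFSet.{u} // y.IsOrdinal}, beq w (check y.1) :=
      (inf_le_left.trans (inf_le_left.trans inf_le_left)).trans
        ((H68.ord B).1 w)
    refine (le_inf le_rfl h).trans ?_
    rw [inf_iSup_eq]
    refine iSup_le fun y => ?_
    by_cases hy : y.1 = om
    · rw [← hy]; exact inf_le_right
    · have h1 : isOm (VB B) w ⊓ beq w (check y.1) ≤ isOm (VB B) (check y.1) :=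
        ext_isOm.of_le (x := w) inf_le_right inf_le_left
      rw [isOm_check_of_ne y.2 hy] at h1
      exact h1.trans bot_le
  · refine ext_isOm.of_le' (x := check om) le_rfl ?_
    rw [isOm_om]; exact le_top

/-- REALS. -/
theorem reals : RealsStatement.{u} := fun _ _ =>
  ⟨nn_mem_rn, beq_rn_rn, sub_rn_rn, sub_om_le, rn_sub_om, isOm_eq, isPow_om⟩

end Pool.Agent.Lib.MP_c5d73d_lc.F.H36
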